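import Pool.Agent.Helper43.Gm.Goals
import Pool.Agent.Helper43.Gm.Goals2

/-!
MP_d3128a_ag, packet G of helper43 (triangle).
-/

set_option autoImplicit false

namespace Pool.Agent.Helper43.Gm.PkG

open Finset Pool.Agent.Lead.Sh
open Pool.Agent.Lead.Rw (Ind')

theorem sum_tri (d J : ℕ) (hJ : J ≤ d + 1) :
    ∑ y ∈ range J, (d + 1 - y) + (d + 2 - J).choose 2 = (d + 2).choose 2 := by
  induction J with
  | zero => simp
  | succ J ih =>
    have h := ih (by omega)
    rw [sum_range_succ]
    have e1 : d + 2 - J = (d + 1 - J) + 1 := by omega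
    have e2 : d + 2 - (J + 1) = d + 1 - J := by omega
    have e3 : (d + 2 - J).choose 2 = (d + 1 - J) + (d + 1 - J).choose 2 := by
      rw [e1]
      have := Nat.choose_succ_succ' (d + 1 - J) 1
      rw [Nat.choose_one_right] at this
      exact this
    rw [e2]
    omega

theorem reg_tri (d : ℕ) : Reg 0 (d + 1) (fun _ => 0) (fun y => d + 1 - y) (triD 0 d) := by
  refine ⟨fun q => ?_, fun y _ k _ _ => by omega⟩
  rw [mem_triD]
  simp only [Nat.zero_mul, Nat.zero_add]
  omega

theorem goalG (h1 : GoalF1) (h2 : GoalF2) : GoalG := by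
  intro M d hM W hW
  have hWm : 2 * M * (2 * M - 1) + (1 + M) * (1 + M - 1) ≤ 2 * W := by
    obtain ⟨k, rfl⟩ : ∃ k, M = k + 1 := ⟨M - 1, by omega⟩
    have e1 : 2 * (k + 1) - 1 = 2 * k + 1 := by omega
    have e2 : 1 + (k + 1) - 1 = k + 1 := by omega
    rw [e1, e2]
    nlinarith
  constructor
  · intro m a b hab hm hc
    rcases Nat.eq_zero_or_pos d with hd | hd
    · subst hd
      have hlt : a < b := by
        rcases Nat.lt_or_ge a b with h | h
        · exact h
        · exfalso
          rw [Ico_eq_empty_of_le h, sum_empty] at hc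
          have h3 : (triD 0 0).card = 1 := by rw [card_triD]; rfl
          omega
      have hcell := cell_inj 1 1 a (fun _ => 0) (fun _ => 0) (by intro i hi j hj _; omega)
      refine hcell.mono ?_ ?_
      · intro q hq
        rw [mem_triD] at hq
        have : q = (0, 0) := by
          ext <;> simp only <;> omega
        rw [this, mem_cellD]
        exact ⟨0, by omega, 0, by omega, rfl⟩
      · intro r hr
        rw [mem_rows, mem_Ico]
        rw [mem_cellR] at hr
        have := hm a le_rfl hlt
        rw [hr.1]
        omega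
    · refine h1 0 M (d + 1) (fun _ => 0) (fun y => d + 1 - y) (fun y => d + 1 - y) (triD 0 d)
        (Icc (max 1 (d + 2 - 2 * M)) d) (reg_tri d) (Or.inl rfl) hM (by omega) ?_ ?_ ?_
        m a b W hab hm ?_ hc
      · rw [mem_Icc]
        omega
      · intro y hy
        omega
      · intro y hy hB
        right
        rw [mem_Icc] at hB
        omega
      · left
        have hcl : cl (d + 1) (Icc (max 1 (d + 2 - 2 * M)) d) = 0 := by
          unfold cl
          rw [card_eq_zero, filter_eq_empty_iff]
          intro z hz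
          rw [mem_Icc] at hz
          rintro ⟨h3, h4⟩
          apply h4
          rw [mem_Icc]
          omega
        have hcard : (Icc (max 1 (d + 2 - 2 * M)) d).card ≤ 2 * M - 1 := by
          rw [Nat.card_Icc]
          omega
        refine ⟨by rw [mem_Icc]; omega, ?_⟩
        rw [hcl]
        have e1 : d + 1 - (d + 1 - 1) = 1 := by omega
        rw [e1]
        calc 2 * M * (Icc (max 1 (d + 2 - 2 * M)) d).card + M * (M - 1) * 0 +
              (1 + M) * (1 + M - 1) ≤ 2 * M * (2 * M - 1) + M * (M - 1) * 0 +
              (1 + M) * (1 + M - 1) := by gcongr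
          _ ≤ 2 * W := by
            rw [Nat.mul_zero, Nat.add_zero]
            exact hWm
  · intro m a b hab hm hc
    refine h2 0 M (d + 1) 0 (d + 2 - 2 * M) (fun _ => 0) (fun y => d + 1 - y)
      (fun y => d + 1 - y) (triD 0 d) (reg_tri d) (Or.inl rfl) hM (Nat.zero_le _) (by omega)
      ?_ ?_ ?_ m a b hab hm ?_
    · intro y hy
      omega
    · intro y _ hy
      right
      omega
    · left
      omega
    · rw [card_triD] at hc
      have h3 := sum_tri d (d + 2 - 2 * M) (by omega)
      have h4 : (d + 2 - (d + 2 - 2 * M)).choose 2 ≤ M * (2 * M - 1) := by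
        have h5 : (d + 2 - (d + 2 - 2 * M)).choose 2 ≤ (2 * M).choose 2 :=
          Nat.choose_le_choose 2 (by omega)
        refine h5.trans (le_of_eq ?_)
        rw [Nat.choose_two_right, Nat.mul_assoc, Nat.mul_div_cancel_left _ (by norm_num)]
      rw [Nat.Ico_zero_eq_range]
      omega

end Pool.Agent.Helper43.Gm.PkG
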